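import Mathlib
import Pool.Agent.R521.TP.Main

set_option autoImplicit false

/-!
# The divergence case for integer approximation by `a ^ θ` fails
-/

open MeasureTheory Set

namespace Pool.Agent.Results.MP_33ac70_nt.DivergenceFails

/-- `(a₁, …, a_k, b)` is a solution for `ρ` and `θ`: all entries are positive integers and
`|∑ a_j ^ θ - b| ≤ ρ(‖a‖) / ‖a‖ ^ k`, where `‖a‖ = max a_j`. -/
def IsSolution {k : ℕ} (ρ : ℕ → ℝ) (θ : ℝ) (x : (Fin k → ℕ) × ℕ) : Prop :=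
  (∀ j, 1 ≤ x.1 j) ∧ 1 ≤ x.2 ∧
    |∑ j, (x.1 j : ℝ) ^ θ - (x.2 : ℝ)| ≤
      ρ (Finset.univ.sup x.1) / ((Finset.univ.sup x.1 : ℕ) : ℝ) ^ k

/-- There is `ρ ≥ 0` with `∑ ρ(m) / m = ∞` such that, for `k = 1`, almost every `θ ∈ (0, 1)` admits
only finitely many solutions. -/
theorem result : ∃ ρ : ℕ → ℝ, (∀ m, 0 ≤ ρ m) ∧ ¬ Summable (fun m : ℕ => ρ m / m) ∧
    ∀ᵐ θ ∂(volume.restrict (Ioo (0 : ℝ) 1)),
      {x : (Fin 1 → ℕ) × ℕ | IsSolution ρ θ x}.Finite := by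
  refine ⟨Pool.Agent.R521.TP.rho, Pool.Agent.R521.TP.rho_nonneg,
    Pool.Agent.R521.TP.not_summable, ?_⟩
  filter_upwards [Pool.Agent.R521.TP.ae_finite] with θ hθ
  have hinj : Function.Injective
      (fun x : (Fin 1 → ℕ) × ℕ => ((x.1 0, x.2) : ℕ × ℕ)) := by
    rintro ⟨a, b⟩ ⟨a', b'⟩ h
    simp only [Prod.mk.injEq] at h
    refine Prod.ext ?_ h.2
    funext i
    rw [Fin.fin_one_eq_zero i]
    exact h.1
  refine Finite.subset (hθ.preimage hinj.injOn) ?_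
  rintro ⟨a, b⟩ ⟨h1, h2, h3⟩
  have hsup : Finset.univ.sup a = a 0 := by
    rw [Finset.univ_unique, Finset.sup_singleton, Fin.default_eq_zero]
  simp only at h1 h2 h3
  rw [hsup, Fin.sum_univ_one, pow_one] at h3
  exact ⟨h1 0, h2, h3⟩

end Pool.Agent.Results.MP_33ac70_nt.DivergenceFails
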